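import Mathlib

/-!
# MP_b6f08f_co: earth mover's distance between the level sets of tribes

The distance between the uniform measures on the two level sets of the tribes function with blocks
of size `w` is at least `w / 4`, hence it is not bounded.  Reason: the mean Hamming weight on
`T⁻¹(1)` is at least `n / 2`, the mean Hamming weight on `T⁻¹(0)` is
`n / 2 - n / (2 (2 ^ w - 1))`, and `n = s w` with `s ≥ 2 ^ (w - 1)`.
-/

set_option autoImplicit false

open Finset

namespace Pool.Agent.Results.MP_b6f08f_co.TribesDistance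

/-- The cube `{0,1}^n` with `n = s w`, its coordinates being indexed by the pairs (block, place in
the block); `x i j` is the `j`-th coordinate of the `i`-th block. -/
abbrev Cube (s w : ℕ) : Type := Fin s → Fin w → Bool

/-- The Hamming distance. -/
def dist {s w : ℕ} (x y : Cube s w) : ℕ :=
  (univ.filter fun p : Fin s × Fin w => x p.1 p.2 ≠ y p.1 p.2).card

/-- `q` is a coupling of `μ` and `ν`. -/
def IsCoupling {s w : ℕ} (μ ν : Cube s w → ℝ) (q : Cube s w → Cube s w → ℝ) : Prop :=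
  (∀ x y, 0 ≤ q x y) ∧ (∀ x, ∑ y, q x y = μ x) ∧ (∀ y, ∑ x, q x y = ν y)

/-- The earth mover's distance. -/
noncomputable def W1 {s w : ℕ} (μ ν : Cube s w → ℝ) : ℝ :=
  sInf {c : ℝ | ∃ q, IsCoupling μ ν q ∧ c = ∑ x, ∑ y, (dist x y : ℝ) * q x y}

open Classical in
/-- The uniform probability measure on the nonempty set `S`. -/
noncomputable def unif {s w : ℕ} (S : Set (Cube s w)) (x : Cube s w) : ℝ :=
  if x ∈ S then 1 / ((univ.filter fun y : Cube s w => y ∈ S).card : ℝ) else 0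

/-- `T⁻¹(1)` for the tribes function `T` (the OR of the ANDs of the blocks). -/
def ones (s w : ℕ) : Set (Cube s w) := {x | ∃ i, ∀ j, x i j = true}

/-- The number `s_w` of tribes: the largest `s` with `1 - (1 - 2^(-w))^s ≤ 1/2`. -/
noncomputable def numTribes (w : ℕ) : ℕ := sSup {s : ℕ | 1 - (1 - (1 / 2 : ℝ) ^ w) ^ s ≤ 1 / 2}

/-- The distance between the uniform measures on `T⁻¹(0)` and on `T⁻¹(1)`. -/
noncomputable def tribesDist (w : ℕ) : ℝ :=
  W1 (unif (ones (numTribes w) w)ᶜ) (unif (ones (numTribes w) w))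

/-- Hamming weight. -/
noncomputable def wt {s w : ℕ} (x : Cube s w) : ℝ := ∑ i, ∑ j, if x i j = true then 1 else 0

lemma wt_sub_le {s w : ℕ} (x y : Cube s w) : wt y - wt x ≤ dist x y := by
  unfold wt dist
  rw [← Finset.sum_sub_distrib, Finset.card_filter, Nat.cast_sum, ← Finset.univ_product_univ,
    Finset.sum_product]
  apply Finset.sum_le_sum
  intro i _
  rw [← Finset.sum_sub_distrib]
  apply Finset.sum_le_sum
  intro j _
  cases x i j <;> cases y i j <;> simp

lemma cost_ge {s w : ℕ} (μ ν : Cube s w → ℝ) (q : Cube s w → Cube s w → ℝ)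
    (hq : IsCoupling μ ν q) :
    ∑ y, ν y * wt y - ∑ x, μ x * wt x ≤ ∑ x, ∑ y, (dist x y : ℝ) * q x y := by
  obtain ⟨h0, h1, h2⟩ := hq
  have e1 : ∑ y, ν y * wt y = ∑ x, ∑ y, wt y * q x y := by
    rw [Finset.sum_comm]
    apply Finset.sum_congr rfl
    intro y _
    rw [← h2 y, Finset.sum_mul]
    exact Finset.sum_congr rfl fun x _ => mul_comm _ _
  have e2 : ∑ x, μ x * wt x = ∑ x, ∑ y, wt x * q x y := by
    apply Finset.sum_congr rfl
    intro x _
    rw [← h1 x, Finset.sum_mul]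
    exact Finset.sum_congr rfl fun x _ => mul_comm _ _
  rw [e1, e2, ← Finset.sum_sub_distrib]
  apply Finset.sum_le_sum
  intro x _
  rw [← Finset.sum_sub_distrib]
  apply Finset.sum_le_sum
  intro y _
  rw [← sub_mul]
  exact mul_le_mul_of_nonneg_right (wt_sub_le x y) (h0 x y)

/-- weight of a block -/
noncomputable def bw {w : ℕ} (b : Fin w → Bool) : ℝ := ∑ j, if b j = true then 1 else 0

lemma sum_bw (w : ℕ) : ∑ b : Fin w → Bool, bw b = w * 2 ^ w / 2 := by
  have h1 : ∑ b : Fin w → Bool, bw b = ∑ b : Fin w → Bool, bw (fun j => !(b j)) := by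
    refine Fintype.sum_equiv (Equiv.piCongrRight fun _ => Equiv.boolNot) _ _ ?_
    intro b
    apply Finset.sum_congr rfl
    intro j _
    simp
  have h2 : ∀ b : Fin w → Bool, bw b + bw (fun j => !(b j)) = w := by
    intro b
    unfold bw
    rw [← Finset.sum_add_distrib]
    have : ∀ j ∈ (univ : Finset (Fin w)), ((if b j = true then (1 : ℝ) else 0) +
        if (!(b j)) = true then (1 : ℝ) else 0) = 1 := by
      intro j _
      cases b j <;> simp
    rw [Finset.sum_congr rfl this]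
    simp
  have h3 : ∑ b : Fin w → Bool, bw b + ∑ b : Fin w → Bool, bw (fun j => !(b j)) = w * 2 ^ w := by
    rw [← Finset.sum_add_distrib, Finset.sum_congr rfl fun b _ => h2 b]
    simp [mul_comm]
  rw [← h1] at h3
  linarith

lemma wt_eq {s w : ℕ} (x : Cube s w) : wt x = ∑ i, bw (x i) := rfl

lemma sum_over {s w : ℕ} (T : Finset (Fin w → Bool)) :
    ∑ x ∈ Fintype.piFinset (fun _ : Fin s => T), wt x
      = s * ((T.card : ℝ) ^ (s - 1) * ∑ b ∈ T, bw b) := by
  simp_rw [wt_eq]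
  rw [Finset.sum_comm]
  have : ∀ i ∈ (univ : Finset (Fin s)), ∑ x ∈ Fintype.piFinset (fun _ : Fin s => T), bw (x i)
      = (T.card : ℝ) ^ (s - 1) * ∑ b ∈ T, bw b := by
    intro i _
    have := Fintype.sum_piFinset_apply (fun b => bw b) T i
    rw [this]
    simp
  rw [Finset.sum_congr rfl this]
  simp

lemma numTribes_ge {w : ℕ} (hw : 1 ≤ w) : 2 ^ (w - 1) ≤ numTribes w := by
  have hp : (0 : ℝ) < (1 / 2 : ℝ) ^ w := by positivity
  have hp1 : (1 / 2 : ℝ) ^ w ≤ 1 / 2 := by
    calc (1 / 2 : ℝ) ^ w ≤ (1 / 2 : ℝ) ^ 1 :=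
          pow_le_pow_of_le_one (by norm_num) (by norm_num) hw
      _ = 1 / 2 := by norm_num
  apply le_csSup
  · obtain ⟨N, hN⟩ := exists_pow_lt_of_lt_one (show (0 : ℝ) < 1 / 2 by norm_num)
      (show 1 - (1 / 2 : ℝ) ^ w < 1 by linarith)
    refine ⟨N, ?_⟩
    intro s hs
    by_contra hlt
    push Not at hlt
    have h1 : (1 - (1 / 2 : ℝ) ^ w) ^ s ≤ (1 - (1 / 2 : ℝ) ^ w) ^ N :=
      pow_le_pow_of_le_one (by linarith) (by linarith) hlt.le
    have h2 : 1 - (1 - (1 / 2 : ℝ) ^ w) ^ s ≤ 1 / 2 := hs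
    linarith
  · show 1 - (1 - (1 / 2 : ℝ) ^ w) ^ (2 ^ (w - 1)) ≤ 1 / 2
    have h1 := one_add_mul_le_pow (show (-2 : ℝ) ≤ -(1 / 2 : ℝ) ^ w by linarith) (2 ^ (w - 1))
    have h2 : ((2 ^ (w - 1) : ℕ) : ℝ) * -(1 / 2 : ℝ) ^ w = -(1 / 2) := by
      obtain ⟨k, rfl⟩ : ∃ k, w = k + 1 := ⟨w - 1, by omega⟩
      rw [Nat.add_sub_cancel, pow_succ]
      push_cast
      have : (2 : ℝ) ^ k * (1 / 2) ^ k = 1 := by
        rw [← mul_pow]
        norm_num
      linear_combination (-(1 / 2) : ℝ) * this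
    rw [h2] at h1
    have h3 : (1 : ℝ) + -(1 / 2 : ℝ) ^ w = 1 - (1 / 2 : ℝ) ^ w := by ring
    rw [h3] at h1
    linarith

open Classical in
lemma sum_unif {s w : ℕ} (S : Set (Cube s w)) (F : Finset (Cube s w)) (hF : ∀ x, x ∈ F ↔ x ∈ S)
    (f : Cube s w → ℝ) : ∑ x, unif S x * f x = (∑ x ∈ F, f x) / F.card := by
  have hF' : F = univ.filter fun y : Cube s w => y ∈ S := by
    ext x
    rw [mem_filter, hF]
    simp
  have : ∀ x ∈ (univ : Finset (Cube s w)), unif S x * f x
      = if x ∈ S then f x / F.card else 0 := by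
    intro x _
    unfold unif
    split_ifs
    · rw [hF']
      ring
    · ring
  rw [Finset.sum_congr rfl this, ← Finset.sum_filter, ← hF', Finset.sum_div]

lemma dist_ge (s w : ℕ) (hw : 1 ≤ w) (hs : 1 ≤ s) :
    (s * w : ℝ) / (2 * (2 ^ w - 1)) ≤ W1 (unif (ones s w)ᶜ) (unif (ones s w)) := by
  classical
  set T : Finset (Fin w → Bool) := univ.erase (fun _ => true) with hT
  have h2w : (1 : ℝ) ≤ 2 ^ w - 1 := by
    have : (2 : ℝ) ^ 1 ≤ 2 ^ w := pow_le_pow_right₀ (by norm_num) hw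
    linarith
  have hTc : (T.card : ℝ) = 2 ^ w - 1 := by
    rw [hT, Finset.card_erase_of_mem (mem_univ _)]
    have h1 : (univ : Finset (Fin w → Bool)).card = 2 ^ w := by simp
    rw [h1, Nat.cast_sub Nat.one_le_two_pow]
    simp
  have hTs : ∑ b ∈ T, bw b = w * 2 ^ w / 2 - w := by
    have h1 := Finset.sum_erase_add (univ : Finset (Fin w → Bool)) (fun b => bw b)
      (mem_univ (fun _ => true))
    rw [sum_bw] at h1
    have h2 : bw (fun _ : Fin w => true) = w := by simp [bw]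
    rw [h2] at h1
    linarith
  -- the two level sets as finsets
  set Z : Finset (Cube s w) := univ.filter fun y => y ∈ (ones s w)ᶜ with hZ
  set A : Finset (Cube s w) := univ.filter fun y => y ∈ ones s w with hA
  have hZpi : Z = Fintype.piFinset (fun _ : Fin s => T) := by
    ext x
    rw [hZ, mem_filter, Fintype.mem_piFinset]
    simp only [mem_univ, true_and, Set.mem_compl_iff, ones, Set.mem_ofPred_eq, not_exists, hT,
      mem_erase, and_true, ne_eq]
    constructor
    · intro h i hi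
      exact h i fun j => by rw [hi]
    · intro h i hi
      exact h i (funext hi)
  obtain ⟨s', hs'⟩ : ∃ s', s = s' + 1 := ⟨s - 1, by omega⟩
  have hz : (Z.card : ℝ) = (2 ^ w - 1) ^ s := by
    rw [hZpi, Fintype.card_piFinset]
    simp [hTc]
  have hzpos : (0 : ℝ) < Z.card := by
    rw [hz]
    positivity
  have hsum : (A.card : ℝ) + Z.card = (2 ^ w) ^ s := by
    have h1 : A.card + Z.card = Fintype.card (Cube s w) := by
      have := Finset.card_filter_add_card_filter_not (s := (univ : Finset (Cube s w)))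
        (fun y => y ∈ ones s w)
      rw [Finset.card_univ] at this
      exact this
    have h2 : Fintype.card (Cube s w) = (2 ^ w) ^ s := by
      simp
    rw [h2] at h1
    exact_mod_cast h1
  have hapos : (0 : ℝ) < A.card := by
    have : A.Nonempty := by
      refine ⟨fun _ _ => true, ?_⟩
      rw [hA, mem_filter]
      exact ⟨mem_univ _, ⟨⟨0, hs⟩, fun _ => rfl⟩⟩
    exact_mod_cast this.card_pos
  have hWZ : ∑ x ∈ Z, wt x = s * ((2 ^ w - 1) ^ (s - 1) * (w * 2 ^ w / 2 - w)) := by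
    rw [hZpi, sum_over, hTc, hTs]
  have hTot : ∑ x ∈ A, wt x + ∑ x ∈ Z, wt x = s * ((2 ^ w) ^ (s - 1) * (w * 2 ^ w / 2)) := by
    have h1 := Finset.sum_filter_add_sum_filter_not (univ : Finset (Cube s w))
      (fun y => y ∈ ones s w) (fun x => wt x)
    have h2 := sum_over (s := s) (univ : Finset (Fin w → Bool))
    rw [Fintype.piFinset_univ, sum_bw] at h2
    have h3 : ((univ : Finset (Fin w → Bool)).card : ℝ) = 2 ^ w := by simp
    rw [h3] at h2
    rw [← h2]
    exact h1
  -- the mean weights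
  have hFZ : ∀ x, x ∈ Z ↔ x ∈ (ones s w)ᶜ := by
    intro x
    rw [hZ, mem_filter]
    simp
  have hFA : ∀ x, x ∈ A ↔ x ∈ ones s w := by
    intro x
    rw [hA, mem_filter]
    simp
  have hm0 : ∑ x, unif (ones s w)ᶜ x * wt x = (∑ x ∈ Z, wt x) / Z.card := sum_unif _ Z hFZ _
  have hm1 : ∑ x, unif (ones s w) x * wt x = (∑ x ∈ A, wt x) / A.card := sum_unif _ A hFA _
  have hP : (0 : ℝ) < 2 ^ w - 1 := by linarith
  have hz' : (Z.card : ℝ) = (2 ^ w - 1) ^ (s - 1) * (2 ^ w - 1) := by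
    rw [hz, ← pow_succ]
    congr 1
    omega
  have e0 : (∑ x ∈ Z, wt x) / Z.card = s * w / 2 - s * w / (2 * (2 ^ w - 1)) := by
    have hP' : (2 : ℝ) ^ w - 1 ≠ 0 := hP.ne'
    rw [hWZ, hz']
    have : ((2 : ℝ) ^ w - 1) ^ (s - 1) ≠ 0 := pow_ne_zero _ hP'
    field_simp
    ring
  have e1 : (s * w : ℝ) / 2 ≤ (∑ x ∈ A, wt x) / A.card := by
    rw [le_div_iff₀ hapos]
    have h1 : ∑ x ∈ Z, wt x ≤ s * w / 2 * Z.card := by
      rw [← div_le_iff₀ hzpos, e0]
      have : (0 : ℝ) ≤ s * w / (2 * (2 ^ w - 1)) := by positivity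
      linarith
    have h2 : (s : ℝ) * ((2 ^ w) ^ (s - 1) * (w * 2 ^ w / 2)) = s * w / 2 * (A.card + Z.card) := by
      rw [hsum, hs', Nat.add_sub_cancel, pow_succ]
      ring
    rw [h2] at hTot
    linarith
  have u0 : ∀ (S : Set (Cube s w)) (x : Cube s w), 0 ≤ unif S x := by
    intro S x
    unfold unif
    split_ifs
    · positivity
    · exact le_rfl
  have u1 : ∑ x, unif (ones s w)ᶜ x = 1 := by
    have := sum_unif _ Z hFZ (fun _ => 1)
    simp only [mul_one, Finset.sum_const, nsmul_eq_mul] at this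
    rw [this, div_self hzpos.ne']
  have u2 : ∑ x, unif (ones s w) x = 1 := by
    have := sum_unif _ A hFA (fun _ => 1)
    simp only [mul_one, Finset.sum_const, nsmul_eq_mul] at this
    rw [this, div_self hapos.ne']
  apply le_csInf
  · refine ⟨_, fun x y => unif (ones s w)ᶜ x * unif (ones s w) y, ⟨?_, ?_, ?_⟩, rfl⟩
    · intro x y
      exact mul_nonneg (u0 _ _) (u0 _ _)
    · intro x
      rw [← Finset.mul_sum, u2, mul_one]
    · intro y
      rw [← Finset.sum_mul, u1, one_mul]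
  · rintro c ⟨q, hq, rfl⟩
    have h1 := cost_ge _ _ q hq
    rw [hm0, hm1, e0] at h1
    linarith

/-- The earth mover's distance between the level sets of tribes is at least `w / 4`; in particular
it is not bounded. -/
theorem result : (∀ w : ℕ, 1 ≤ w → (w : ℝ) / 4 ≤ tribesDist w) ∧
    ¬ ∃ C : ℝ, ∀ w : ℕ, 1 ≤ w → tribesDist w ≤ C := by
  have main : ∀ w : ℕ, 1 ≤ w → (w : ℝ) / 4 ≤ tribesDist w := by
    intro w hw
    have h1 := numTribes_ge hw
    have h2 : 1 ≤ numTribes w := le_trans Nat.one_le_two_pow h1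
    refine le_trans ?_ (dist_ge (numTribes w) w hw h2)
    have h2w : (1 : ℝ) ≤ 2 ^ w - 1 := by
      have : (2 : ℝ) ^ 1 ≤ 2 ^ w := pow_le_pow_right₀ (by norm_num) hw
      linarith
    rw [div_le_div_iff₀ (by norm_num) (by linarith)]
    have h3 : (2 : ℝ) ^ (w - 1) ≤ numTribes w := by exact_mod_cast h1
    have h4 : (2 : ℝ) ^ w = 2 * 2 ^ (w - 1) := by
      rw [← pow_succ']
      congr 1
      omega
    have h5 : (2 : ℝ) ^ w - 1 ≤ 2 * numTribes w := by linarith
    have h6 : (0 : ℝ) ≤ w := by positivity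
    nlinarith
  refine ⟨main, ?_⟩
  rintro ⟨C, hC⟩
  obtain ⟨n, hn⟩ := exists_nat_gt (4 * C)
  have h1 := main (n + 1) (by omega)
  have h2 := hC (n + 1) (by omega)
  push_cast at h1
  linarith

end Pool.Agent.Results.MP_b6f08f_co.TribesDistance
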